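import Pool.Agent.helper27.CHS.Spec
import Pool.Agent.helper22.PD.Mertens2

/-!
# Row chs:SL (MP_5628fe_nt): lower Mertens bound in blocks
-/

set_option autoImplicit false

namespace Pool.Agent.CHS

open Finset Pool.Agent.SX

theorem SL (hPA : PA_stmt) : SL_stmt := by
  obtain ⟨C, hC, hM⟩ := Pool.Agent.helper22.PD.mertens_second
  refine ⟨C + 4, by linarith, ?_⟩
  intro s t hs hst
  have hs0 : 0 < s := by linarith
  have ht0 : 0 < t := by linarith
  have hsig := (hPA.2.2.1 s t hs).2.2.1
  have hlogdiv : Real.log (t / s) = Real.log t - Real.log s :=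
    Real.log_div ht0.ne' hs0.ne'
  have he1 : (2 : ℝ) ≤ Real.exp 1 := by
    have := Real.add_one_le_exp (1 : ℝ)
    linarith
  -- `log (s + 1) ≤ log s + 1 / s`
  have hls1 : Real.log (s + 1) ≤ Real.log s + 1 / s := by
    have h1 : s + 1 = s * (1 + 1 / s) := by field_simp
    have h2 : (0 : ℝ) < 1 + 1 / s := by positivity
    rw [h1, Real.log_mul hs0.ne' h2.ne']
    have := Real.log_le_sub_one_of_pos h2
    linarith
  by_cases hkn : ⌈Real.exp s⌉₊ ≤ ⌈Real.exp t⌉₊ - 1
  · set k := ⌈Real.exp s⌉₊ with hk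
    set n := ⌈Real.exp t⌉₊ - 1 with hn
    have hexps : Real.exp s ≤ k := Nat.le_ceil _
    have hexps3 : (3 : ℝ) ≤ Real.exp s := by
      have := Real.add_one_le_exp s
      linarith
    have hk2 : 2 ≤ k := by
      have : (2 : ℝ) ≤ (k : ℝ) := by linarith
      exact_mod_cast this
    have hn2 : 2 ≤ n := hk2.trans hkn
    have hmain := hM k n hk2 hkn
    -- sizes
    have hkub : (k : ℝ) ≤ Real.exp (s + 1) := by
      have h1 : (k : ℝ) < Real.exp s + 1 := Nat.ceil_lt_add_one (Real.exp_pos s).le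
      rw [Real.exp_add]
      nlinarith [Real.exp_pos s]
    have hnlb : Real.exp (t - 1) ≤ (n : ℝ) := by
      have h1 : Real.exp t ≤ (⌈Real.exp t⌉₊ : ℝ) := Nat.le_ceil _
      have h2 : ((n : ℕ) : ℝ) = (⌈Real.exp t⌉₊ : ℝ) - 1 := by
        have : 1 ≤ ⌈Real.exp t⌉₊ := by omega
        rw [hn]
        push_cast [Nat.cast_sub this]
        ring
      have h3 : Real.exp t = Real.exp (t - 1) * Real.exp 1 := by
        rw [← Real.exp_add]
        ring_nf
      have h4 : (2 : ℝ) ≤ Real.exp (t - 1) := by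
        have := Real.add_one_le_exp (t - 1)
        linarith
      rw [h2]
      nlinarith
    have hk0 : (0 : ℝ) < k := by linarith
    have hn0 : (0 : ℝ) < n := lt_of_lt_of_le (Real.exp_pos _) hnlb
    have hlk1 : s ≤ Real.log k := by
      rw [Real.le_log_iff_exp_le hk0]
      exact hexps
    have hlk2 : Real.log k ≤ s + 1 := by
      rw [Real.log_le_iff_le_exp hk0]
      exact hkub
    have hln1 : t - 1 ≤ Real.log n := by
      rw [Real.le_log_iff_exp_le hn0]
      exact hnlb
    have hllk : Real.log (Real.log k) ≤ Real.log s + 1 / s :=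
      (Real.log_le_log (by linarith) hlk2).trans hls1
    have hlln : Real.log t - 2 / s ≤ Real.log (Real.log n) := by
      have h1 : Real.log (t - 1) ≤ Real.log (Real.log n) :=
        Real.log_le_log (by linarith) hln1
      have ht1 : 0 < t - 1 := by linarith
      -- `log t ≤ log (t - 1) + 1 / (t - 1)`
      have h2 : Real.log t ≤ Real.log (t - 1) + 1 / (t - 1) := by
        have h3 : t = (t - 1) * (1 + 1 / (t - 1)) := by field_simp; ring
        have h4 : (0 : ℝ) < 1 + 1 / (t - 1) := by positivity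
        have h5 : Real.log t = Real.log (t - 1) + Real.log (1 + 1 / (t - 1)) := by
          rw [← Real.log_mul ht1.ne' h4.ne', ← h3]
        have := Real.log_le_sub_one_of_pos h4
        linarith
      have h6 : 1 / (t - 1) ≤ 2 / s := by
        rw [div_le_div_iff₀ ht1 hs0]
        linarith
      linarith
    have hCk : C / Real.log k ≤ C / s :=
      div_le_div_of_nonneg_left hC.le hs0 hlk1
    -- the sum
    have hsub : (Ioc k n).filter Nat.Prime ⊆ PB s t := by
      intro p hp
      rw [mem_filter, mem_Ioc] at hp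
      obtain ⟨⟨hp1, hp2⟩, hp3⟩ := hp
      rw [hPA.1]
      have hp0 : (0 : ℝ) < p := by exact_mod_cast hp3.pos
      refine ⟨hp3, ?_, ?_⟩
      · rw [Real.le_log_iff_exp_le hp0]
        have : (k : ℝ) ≤ p := by exact_mod_cast hp1.le
        linarith
      · rw [Real.log_lt_iff_lt_exp hp0]
        have : p < ⌈Real.exp t⌉₊ := by omega
        exact Nat.lt_ceil.mp this
    have hpos : ∀ p ∈ PB s t, (0 : ℝ) ≤ 1 / ((p : ℝ) - 1) := by
      intro p hp
      exact ((hPA.2.2.1 s t hs).2.2.2 p hp).2.1.le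
    have hsum : ∑ p ∈ (Ioc k n).filter Nat.Prime, 1 / (p : ℝ) ≤ sig s t := by
      calc ∑ p ∈ (Ioc k n).filter Nat.Prime, 1 / (p : ℝ)
          ≤ ∑ p ∈ (Ioc k n).filter Nat.Prime, 1 / ((p : ℝ) - 1) := by
            apply sum_le_sum
            intro p hp
            have hp8 := ((hPA.2.2.1 s t hs).2.2.2 p (hsub hp)).1
            have hp8' : (8 : ℝ) ≤ p := by exact_mod_cast hp8
            exact one_div_le_one_div_of_le (by linarith) (by linarith)
        _ ≤ ∑ p ∈ PB s t, 1 / ((p : ℝ) - 1) :=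
            sum_le_sum_of_subset_of_nonneg hsub (fun p hp _ => hpos p hp)
        _ = sig s t := rfl
    have hsplit : (C + 4) / s = C / s + 2 / s + 1 / s + 1 / s := by ring
    have h1s : 0 < 1 / s := by positivity
    rw [hlogdiv, hsplit]
    linarith
  · have h1 : ⌈Real.exp t⌉₊ ≤ ⌈Real.exp s⌉₊ := by omega
    have h2 : Real.exp t ≤ Real.exp (s + 1) := by
      have h3 : Real.exp t ≤ (⌈Real.exp t⌉₊ : ℝ) := Nat.le_ceil _
      have h4 : (⌈Real.exp t⌉₊ : ℝ) ≤ (⌈Real.exp s⌉₊ : ℝ) := by exact_mod_cast h1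
      have h5 : (⌈Real.exp s⌉₊ : ℝ) < Real.exp s + 1 := Nat.ceil_lt_add_one (Real.exp_pos s).le
      have h6 : (1 : ℝ) ≤ Real.exp s := by
        have := Real.add_one_le_exp s
        linarith
      rw [Real.exp_add]
      nlinarith
    have h7 : t ≤ s + 1 := Real.exp_le_exp.mp h2
    have h8 : Real.log t ≤ Real.log (s + 1) := Real.log_le_log ht0 h7
    have hsplit : (C + 4) / s = C / s + 3 / s + 1 / s := by ring
    have hCs : 0 < C / s := by positivity
    have h3s : 0 < 3 / s := by positivity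
    rw [hlogdiv, hsplit]
    linarith

end Pool.Agent.CHS
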